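import Pool.Agent.H25.EE.TargetsB

set_option autoImplicit false

open Polynomial Finset

namespace Pool.Agent.H19.EE.ENT

open Pool.Agent.H25.EE

theorem ev_mul (P Q : ℤ[X]) (x : ℂ) : ev (P * Q) x = ev P x * ev Q x := by
  simp [ev, toC]

theorem ev_add (P Q : ℤ[X]) (x : ℂ) : ev (P + Q) x = ev P x + ev Q x := by
  simp [ev, toC]

theorem ev_pow (P : ℤ[X]) (n : ℕ) (x : ℂ) : ev (P ^ n) x = ev P x ^ n := by
  simp [ev, toC]

theorem ev_C (c : ℤ) (x : ℂ) : ev (C c) x = (c : ℂ) := by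
  simp [ev, toC]

theorem ev_X (x : ℂ) : ev (X : ℤ[X]) x = x := by
  simp [ev, toC]

theorem ev_sum {ι : Type} (s : Finset ι) (f : ι → ℤ[X]) (x : ℂ) :
    ev (∑ l ∈ s, f l) x = ∑ l ∈ s, ev (f l) x := by
  simp [ev, toC, Polynomial.map_sum, eval_finsetSum]

theorem ev_lp (l : ℤ × ℤ) : ev (Pool.Agent.H25.EE.lp l) ee = ((lin l : ℝ) : ℂ) := by
  unfold Pool.Agent.H25.EE.lp lin
  rw [ev_add, ev_mul, ev_C, ev_C, ev_X]
  unfold ee
  push_cast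
  ring

theorem ev_Wp (π : Par) (x : ℤ × ℤ) (hB : lin π.B ≠ 0) :
    ev (Wp π x) ee = ((lin π.B : ℝ) : ℂ) * om π x := by
  unfold Wp om
  rw [ev_add, ev_mul, ev_mul, ev_C, ev_C, ev_lp, ev_lp]
  have : ((lin π.B : ℝ) : ℂ) ≠ 0 := by exact_mod_cast hB
  push_cast
  field_simp

theorem ev_Zp (π : Par) (x : ℤ × ℤ) (hA : lin π.A ≠ 0) :
    ev (Zp π x) ee = ((lin π.A : ℝ) : ℂ) * ze π x := by
  unfold Zp ze
  rw [ev_add, ev_mul, ev_mul, ev_C, ev_C, ev_lp, ev_lp]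
  have : ((lin π.A : ℝ) : ℂ) ≠ 0 := by exact_mod_cast hA
  push_cast
  field_simp

theorem ev_PP (π : Par) (a b : Idx) (hA : lin π.A ≠ 0) (hB : lin π.B ≠ 0) :
    ev (PP π a b) ee = ((lin π.A : ℝ) : ℂ) ^ a.2 * ((lin π.B : ℝ) : ℂ) ^ b.2 *
      ∑ l ∈ range (min a.2 b.2 + 1),
        ((l.factorial * a.2.choose l * b.2.choose l : ℕ) : ℂ) * ze π b.1 ^ (a.2 - l) *
          om π a.1 ^ (b.2 - l) := by
  unfold PP
  rw [ev_sum, mul_sum]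
  refine sum_congr rfl fun l hl => ?_
  rw [mem_range] at hl
  have h1 : l ≤ a.2 := by omega
  have h2 : l ≤ b.2 := by omega
  rw [ev_mul, ev_mul, ev_mul, ev_pow, ev_pow, ev_pow, ev_mul, ev_C, ev_lp, ev_lp,
    ev_Wp π _ hB, ev_Zp π _ hA, mul_pow, mul_pow, mul_pow]
  have e1 : ((lin π.A : ℝ) : ℂ) ^ a.2 =
      ((lin π.A : ℝ) : ℂ) ^ (a.2 - l) * ((lin π.A : ℝ) : ℂ) ^ l := by
    rw [← pow_add]
    congr 1
    omega
  have e2 : ((lin π.B : ℝ) : ℂ) ^ b.2 =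
      ((lin π.B : ℝ) : ℂ) ^ (b.2 - l) * ((lin π.B : ℝ) : ℂ) ^ l := by
    rw [← pow_add]
    congr 1
    omega
  rw [e1, e2]
  push_cast
  ring

theorem hn_nonneg (x : ℤ × ℤ) : 0 ≤ hn x := by
  unfold hn
  have h1 := sq_nonneg x.1
  have h2 := sq_nonneg x.2
  omega

theorem hn_ge (x : ℤ × ℤ) : x.1 ^ 2 + x.2 ^ 2 ≤ 2 * hn x := by
  unfold hn
  omega

theorem EX_eq (a b : Idx) : ((EX a b : ℕ) : ℤ) =
    (a.1.1 * b.1.1 + a.1.2 * b.1.2) + ((hn a.1).toNat + (hn b.1).toNat : ℤ) := by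
  unfold EX
  have h1 := hn_ge a.1
  have h2 := hn_ge b.1
  have h3 := hn_nonneg a.1
  have h4 := hn_nonneg b.1
  have h5 : 0 ≤ a.1.1 * b.1.1 + a.1.2 * b.1.2 + hn a.1 + hn b.1 := by
    nlinarith [sq_nonneg (a.1.1 + b.1.1), sq_nonneg (a.1.2 + b.1.2)]
  rw [Int.toNat_of_nonneg h5, Int.toNat_of_nonneg h3, Int.toNat_of_nonneg h4]
  ring

theorem cst_one {u v : ℕ} (hu : 0 < u) (hv : 0 < v) (J : ℕ) (e : ℤ) (h1 : -((J : ℤ) ^ 2) ≤ e)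
    (h2 : e ≤ (J : ℤ) ^ 2) :
    (u : ℝ) ^ ((J : ℤ) ^ 2 + e).toNat * (v : ℝ) ^ ((J : ℤ) ^ 2 - e).toNat =
      ((u : ℝ) * v) ^ (J ^ 2) * ((u : ℝ) / v) ^ e := by
  have hu0 : (u : ℝ) ≠ 0 := by exact_mod_cast hu.ne'
  have hv0 : (v : ℝ) ≠ 0 := by exact_mod_cast hv.ne'
  rw [← zpow_natCast (u : ℝ), ← zpow_natCast (v : ℝ), Int.toNat_of_nonneg (by linarith),
    Int.toNat_of_nonneg (by linarith), zpow_add₀ hu0, zpow_sub₀ hv0, div_zpow, mul_pow]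
  have e1 : (u : ℝ) ^ ((J : ℤ) ^ 2) = (u : ℝ) ^ (J ^ 2) := by
    rw [← zpow_natCast (u : ℝ) (J ^ 2)]
    push_cast
    rfl
  have e2 : (v : ℝ) ^ ((J : ℤ) ^ 2) = (v : ℝ) ^ (J ^ 2) := by
    rw [← zpow_natCast (v : ℝ) (J ^ 2)]
    push_cast
    rfl
  rw [e1, e2]
  ring

theorem exo_bound {J : ℕ} {a b : Idx} (ha : a.1 ∈ nd J) (hb : b.1 ∈ nd J) (i j : Fin 2) :
    -((J : ℤ) ^ 2) ≤ exo a b i j ∧ exo a b i j ≤ (J : ℤ) ^ 2 := by
  unfold nd at ha hb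
  rw [mem_product, mem_Icc, mem_Icc] at ha hb
  obtain ⟨⟨a1, a2⟩, a3, a4⟩ := ha
  obtain ⟨⟨b1, b2⟩, b3, b4⟩ := hb
  have key : ∀ p q : ℤ, -(J : ℤ) ≤ p → p ≤ J → -(J : ℤ) ≤ q → q ≤ J →
      -((J : ℤ) ^ 2) ≤ p * q ∧ p * q ≤ (J : ℤ) ^ 2 := by
    intro p q h1 h2 h3 h4
    constructor <;> nlinarith
  unfold exo
  fin_cases i <;> fin_cases j <;> exact key _ _ (by assumption) (by assumption) (by assumption)
    (by assumption)

/-- the real number `om` -/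
noncomputable def omr (π : Par) (x : ℤ × ℤ) : ℝ :=
  ((x.1 : ℝ) * lin π.x1 + x.2 * lin π.x2) / lin π.B

noncomputable def zer (π : Par) (x : ℤ × ℤ) : ℝ :=
  ((x.1 : ℝ) * lin π.y1 + x.2 * lin π.y2) / lin π.A

theorem exp_int_mul' (n : ℤ) (x : ℝ) : Real.exp ((n : ℝ) * x) = Real.exp x ^ n := by
  rw [← Real.rpow_intCast, ← Real.exp_mul, mul_comm]

theorem exp_eq (π : Par) (a b : Idx) (hA : lin π.A ≠ 0) (hB : lin π.B ≠ 0) :
    Real.exp (omr π a.1 * zer π b.1) =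
      Real.exp 1 ^ (a.1.1 * b.1.1 + a.1.2 * b.1.2) *
        ∏ i : Fin 2, ∏ j : Fin 2, ((π.u i j : ℝ) / π.v i j) ^ exo a b i j := by
  have e : omr π a.1 * zer π b.1 =
      ((a.1.1 * b.1.1 + a.1.2 * b.1.2 : ℤ) : ℝ) * 1 +
      (((a.1.1 * b.1.1 : ℤ) : ℝ) * (lin π.x1 * lin π.y1 / (lin π.A * lin π.B) - 1) +
      ((a.1.1 * b.1.2 : ℤ) : ℝ) * (lin π.x1 * lin π.y2 / (lin π.A * lin π.B)) +
      (((a.1.2 * b.1.1 : ℤ) : ℝ) * (lin π.x2 * lin π.y1 / (lin π.A * lin π.B)) +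
      ((a.1.2 * b.1.2 : ℤ) : ℝ) * (lin π.x2 * lin π.y2 / (lin π.A * lin π.B) - 1))) := by
    unfold omr zer
    push_cast
    field_simp
    ring
  rw [e, Real.exp_add, Real.exp_add, Real.exp_add, Real.exp_add, exp_int_mul', exp_int_mul',
    exp_int_mul', exp_int_mul', exp_int_mul', π.h11, π.h12, π.h21, π.h22]
  simp only [Fin.prod_univ_two, exo]
  rfl

theorem key (π : Par) (J : ℕ) (a b : Idx) (ha : a.1 ∈ nd J) (hb : b.1 ∈ nd J)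
    (hA : lin π.A ≠ 0) (hB : lin π.B ≠ 0) :
    ((cst π J a b : ℤ) : ℝ) * Real.exp 1 ^ EX a b =
      Real.exp 1 ^ (hn a.1).toNat * Real.exp 1 ^ (hn b.1).toNat *
        (∏ i : Fin 2, ∏ j : Fin 2, ((π.u i j : ℝ) * π.v i j) ^ (J ^ 2)) *
        Real.exp (omr π a.1 * zer π b.1) := by
  have e0 : Real.exp 1 ≠ 0 := (Real.exp_pos 1).ne'
  have e1 : Real.exp 1 ^ EX a b = Real.exp 1 ^ (a.1.1 * b.1.1 + a.1.2 * b.1.2) *
      (Real.exp 1 ^ (hn a.1).toNat * Real.exp 1 ^ (hn b.1).toNat) := by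
    rw [← zpow_natCast (Real.exp 1) (EX a b), EX_eq,
      zpow_add₀ e0 (a.1.1 * b.1.1 + a.1.2 * b.1.2), zpow_add₀ e0 ((hn a.1).toNat : ℤ),
      zpow_natCast, zpow_natCast]
  have e2 : ((cst π J a b : ℤ) : ℝ) =
      (∏ i : Fin 2, ∏ j : Fin 2, ((π.u i j : ℝ) * π.v i j) ^ (J ^ 2)) *
        ∏ i : Fin 2, ∏ j : Fin 2, ((π.u i j : ℝ) / π.v i j) ^ exo a b i j := by
    unfold cst
    push_cast
    rw [← prod_mul_distrib]
    refine prod_congr rfl fun i _ => ?_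
    rw [← prod_mul_distrib]
    refine prod_congr rfl fun j _ => ?_
    obtain ⟨h1, h2⟩ := exo_bound ha hb i j
    exact cst_one (π.hu i j) (π.hv i j) J _ h1 h2
  rw [e1, e2, exp_eq π a b hA hB]
  ring

theorem keyC (π : Par) (J : ℕ) (a b : Idx) (ha : a.1 ∈ nd J) (hb : b.1 ∈ nd J)
    (hA : lin π.A ≠ 0) (hB : lin π.B ≠ 0) :
    ((cst π J a b : ℤ) : ℂ) * ee ^ EX a b =
      ee ^ (hn a.1).toNat * ee ^ (hn b.1).toNat *
        (∏ i : Fin 2, ∏ j : Fin 2, ((π.u i j : ℂ) * π.v i j) ^ (J ^ 2)) *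
        Complex.exp (om π a.1 * ze π b.1) := by
  have h := congrArg (fun r : ℝ => (r : ℂ)) (key π J a b ha hb hA hB)
  have e1 : Complex.exp (om π a.1 * ze π b.1) =
      ((Real.exp (omr π a.1 * zer π b.1) : ℝ) : ℂ) := by
    rw [Complex.ofReal_exp]
    congr 1
    unfold om ze omr zer
    push_cast
    ring
  rw [e1]
  unfold ee
  simp only [Complex.ofReal_mul, Complex.ofReal_pow, Complex.ofReal_prod, Complex.ofReal_intCast,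
    Complex.ofReal_natCast] at h
  exact h

theorem pf_ENT (hTAY : T_TAY) (hLNZ : T_LNZ) : T_ENT := by
  intro π J a b ha hb
  have hA : lin π.A ≠ 0 := hLNZ _ π.hA
  have hB : lin π.B ≠ 0 := hLNZ _ π.hB
  have ha1 : a.1 ∈ nd J := (mem_sigma.mp ha).1
  have hb1 : b.1 ∈ nd J := (mem_sigma.mp hb).1
  have h := (hTAY a.2 b.2 (om π a.1) (ze π b.1)).mul_left (ra π a * cb π J b)
  have e1 : ra π a * cb π J b * (Complex.exp (om π a.1 * ze π b.1) *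
      ∑ l ∈ range (min a.2 b.2 + 1),
        ((l.factorial * a.2.choose l * b.2.choose l : ℕ) : ℂ) * ze π b.1 ^ (a.2 - l) *
          om π a.1 ^ (b.2 - l)) = ev (mm π J a b) ee := by
    unfold mm
    rw [ev_mul, ev_mul, ev_C, ev_pow, ev_X, ev_PP π a b hA hB]
    unfold ra cb
    have hk := keyC π J a b ha1 hb1 hA hB
    linear_combination (-(((lin π.A : ℝ) : ℂ) ^ a.2 * ((lin π.B : ℝ) : ℂ) ^ b.2 *
      ∑ l ∈ range (min a.2 b.2 + 1),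
        ((l.factorial * a.2.choose l * b.2.choose l : ℕ) : ℂ) * ze π b.1 ^ (a.2 - l) *
          om π a.1 ^ (b.2 - l))) * hk
  rw [e1] at h
  have e2 : (fun n => al π a n * be π J b n) = fun n : ℕ => ra π a * cb π J b *
      ((n.descFactorial a.2 : ℂ) * om π a.1 ^ (n - a.2) *
        ((n.descFactorial b.2 : ℂ) * ze π b.1 ^ (n - b.2)) / (n.factorial : ℂ)) := by
    funext n
    unfold al be
    ring
  rw [e2]
  exact h

end Pool.Agent.H19.EE.ENT
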