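import Pool.Agent.H25.EE.TargetsA

set_option autoImplicit false

namespace Pool.Agent.H19.EE.GIN

open Pool.Agent.H25.EE

theorem le1 (u : ℝ) : GG u ≤ 4 / 5 * u := by
  unfold GG
  have h1 := min_le_left u (93 / 245 : ℝ)
  have h2 := min_le_left u (147 / 155 : ℝ)
  linarith

theorem le2 (u : ℝ) : GG u ≤ 93 / 500 + 31 / 100 * u := by
  unfold GG
  have h1 := min_le_right u (93 / 245 : ℝ)
  have h2 := min_le_left u (147 / 155 : ℝ)
  linarith

theorem first (a q : ℝ) (ha : 0 ≤ a) (ha1 : a ≤ 1) (hq : 0 ≤ q) (hq1 : q ≤ 1) :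
    GG (a * q ^ 2) ≤ q * (a - a ^ 2 / 2) := by
  rcases le_or_gt a (2 - 8 * q / 5) with h | h
  · refine (le1 _).trans ?_
    have h1 : 0 ≤ q * a := mul_nonneg hq ha
    nlinarith [mul_nonneg h1 (show 0 ≤ 2 - 8 * q / 5 - a by linarith)]
  · refine (le2 _).trans ?_
    have hq5 : 5 / 8 < q := by linarith
    set a0 : ℝ := 2 - 8 * q / 5 with ha0
    have hA : 0 ≤ (q - 5 / 8) * (1 - q) := mul_nonneg (by linarith) (by linarith)
    have f1 : 0 ≤ q / 2 - 31 / 100 * q ^ 2 - 93 / 500 := by nlinarith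
    have hB : 0 ≤ (q - 5 / 8) * (1 - q) * (8 / 5 * q + 3 / 5) :=
      mul_nonneg hA (by linarith)
    have f0 : 0 ≤ 49 / 100 * a0 * q ^ 2 - 93 / 500 := by
      rw [ha0]
      nlinarith
    have h1 : 0 ≤ 1 - a := by linarith
    have h2 : 0 ≤ a - a0 := by linarith
    have h3 : 0 < 1 - a0 := by rw [ha0]; linarith
    have key : (1 - a0) * (q * (a - a ^ 2 / 2) - 31 / 100 * a * q ^ 2 - 93 / 500) =
        (1 - a) * (49 / 100 * a0 * q ^ 2 - 93 / 500) +
        (a - a0) * (q / 2 - 31 / 100 * q ^ 2 - 93 / 500) +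
        q / 2 * ((1 - a0) * ((1 - a) * (a - a0))) := by
      rw [ha0]
      ring
    have h4 : 0 ≤ (1 - a0) * (q * (a - a ^ 2 / 2) - 31 / 100 * a * q ^ 2 - 93 / 500) := by
      rw [key]
      have e1 := mul_nonneg h1 f0
      have e2 := mul_nonneg h2 f1
      have e3 : 0 ≤ q / 2 * ((1 - a0) * ((1 - a) * (a - a0))) :=
        mul_nonneg (by linarith) (mul_nonneg h3.le (mul_nonneg h1 h2))
      linarith
    have h5 := nonneg_of_mul_nonneg_right h4 h3
    linarith

theorem pf_GIN : T_GIN := by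
  refine ⟨first, ?_, ?_, ?_, ?_⟩
  · intro u hu
    unfold GG
    have h1 : 0 ≤ min u (93 / 245 : ℝ) := le_min hu (by norm_num)
    have h2 : 0 ≤ min u (147 / 155 : ℝ) := le_min hu (by norm_num)
    linarith
  · intro u
    unfold GG
    have h1 := min_le_right u (93 / 245 : ℝ)
    have h2 := min_le_right u (147 / 155 : ℝ)
    linarith
  · intro u v h
    unfold GG
    have h1 : min u (93 / 245 : ℝ) ≤ min v (93 / 245) := min_le_min_right _ h
    have h2 : min u (147 / 155 : ℝ) ≤ min v (147 / 155) := min_le_min_right _ h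
    linarith
  · intro l u hl hu
    have key : ∀ s : ℝ, 0 ≤ s → min (l * u) s ≤ l * min u s := by
      intro s hs
      rcases le_total u s with h | h
      · rw [min_eq_left h]
        exact min_le_left _ _
      · rw [min_eq_right h]
        exact (min_le_right _ _).trans (by nlinarith)
    unfold GG
    have h1 := key (93 / 245) (by norm_num)
    have h2 := key (147 / 155) (by norm_num)
    linarith

end Pool.Agent.H19.EE.GIN
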