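import Pool.Agent.H25.EE.TargetsB

set_option autoImplicit false

open Finset Filter

namespace Pool.Agent.H19.EE.SEP

open Pool.Agent.H25.EE

theorem card_Ix (σ : ℚ) (J : ℕ) : (Ix σ J).card = ∑ y ∈ nd J, mlt σ J y := by
  unfold Ix
  rw [card_sigma]
  simp

theorem final (k n L lJ lM ε J2 : ℝ) (hk : 0 ≤ k) (hn : 0 ≤ n) (hJ2 : 0 ≤ J2) (hlM : 0 ≤ lM)
    (hlJ : 0 ≤ lJ) (hL : L = lJ - lM) (h1 : lM ≤ ε / 3 * lJ) (h2 : J2 ≤ ε / 3 * k)
    (h3 : J2 * n ≤ ε / 12 * k) :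
    (1 - ε) * k * lJ ≤ L * (k - J2 - J2 * n) - 3 * lJ * (J2 * n) := by
  have e1 : lM * k ≤ ε / 3 * lJ * k := mul_le_mul_of_nonneg_right h1 hk
  have e2 : lJ * J2 ≤ lJ * (ε / 3 * k) := mul_le_mul_of_nonneg_left h2 hlJ
  have e3 : lJ * (J2 * n) ≤ lJ * (ε / 12 * k) := mul_le_mul_of_nonneg_left h3 hlJ
  have e4 : 0 ≤ lM * J2 := mul_nonneg hlM hJ2
  have e5 : 0 ≤ lM * (J2 * n) := mul_nonneg hlM (mul_nonneg hJ2 hn)
  rw [hL]
  nlinarith

theorem gen (σ : ℚ) (D : ℤ × ℤ → ℤ × ℤ → ℝ)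
    (hsep : ∃ J1 : ℕ, ∀ J ≥ J1, ∀ x ∈ nd J, ∀ y ∈ nd J, x ≠ y → 1 ≤ (J : ℝ) ^ 3 * D x y)
    (hstr : ∃ K : ℝ, ∀ J M : ℕ, 1 ≤ M → M ≤ J → ∀ x : ℤ × ℤ,
      (((nd J).filter fun y : ℤ × ℤ => D x y * M ≤ J).card : ℝ) ≤ K * (J : ℝ) ^ 2 / M)
    (hk : ∃ J2 : ℕ, ∀ J ≥ J2, (J : ℝ) ^ 4 ≤ 1000 * (Ix σ J).card)
    (hm : ∀ (J : ℕ) (x : ℤ × ℤ), x ∈ nd J → mlt σ J x ≤ J ^ 2) (ε : ℝ) (hε : 0 < ε) :
    ∃ J0 : ℕ, ∀ J ≥ J0, ∀ x ∈ nd J, Real.exp ((1 - ε) * (Ix σ J).card * Real.log J) ≤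
      ∏ y ∈ (nd J).erase x, D x y ^ mlt σ J y := by
  obtain ⟨J1, hsep⟩ := hsep
  obtain ⟨K, hstr⟩ := hstr
  obtain ⟨J2, hk⟩ := hk
  obtain ⟨M0, hM0⟩ := exists_nat_ge (12000 * |K| / ε)
  set M : ℕ := M0 + 1 with hM
  have hM1 : 1 ≤ M := by omega
  have hMK : 12000 * |K| / ε ≤ M := hM0.trans (by rw [hM]; push_cast; linarith)
  have ev1 : ∀ᶠ J : ℕ in atTop, Real.log M ≤ ε / 3 * Real.log J := by
    have h1 : Tendsto (fun J : ℕ => ε / 3 * Real.log J) atTop atTop :=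
      (Real.tendsto_log_atTop.comp tendsto_natCast_atTop_atTop).const_mul_atTop (by positivity)
    exact h1.eventually_ge_atTop _
  have ev2 : ∀ᶠ J : ℕ in atTop, 3000 / ε ≤ (J : ℝ) := by
    exact (tendsto_natCast_atTop_atTop (R := ℝ)).eventually_ge_atTop _
  obtain ⟨J3, hJ3⟩ := eventually_atTop.mp (ev1.and ev2)
  refine ⟨max (max J1 J2) (max J3 M), fun J hJ x hx => ?_⟩
  have hJ1 : J1 ≤ J := (le_max_left _ _).trans ((le_max_left _ _).trans hJ)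
  have hJ2 : J2 ≤ J := (le_max_right _ _).trans ((le_max_left _ _).trans hJ)
  have hJ3' : J3 ≤ J := (le_max_left _ _).trans ((le_max_right _ _).trans hJ)
  have hJM : M ≤ J := (le_max_right _ _).trans ((le_max_right _ _).trans hJ)
  obtain ⟨hlog, h3000⟩ := hJ3 J hJ3'
  have hJr : (1 : ℝ) ≤ J := by
    have : 1 ≤ J := hM1.trans hJM
    exact_mod_cast this
  have hMr : (1 : ℝ) ≤ M := by exact_mod_cast hM1
  have hJMr : (M : ℝ) ≤ J := by exact_mod_cast hJM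
  have hlJ : 0 ≤ Real.log J := Real.log_nonneg hJr
  have hlM : 0 ≤ Real.log M := Real.log_nonneg hMr
  have hlMJ : Real.log M ≤ Real.log J := Real.log_le_log (by linarith) hJMr
  set k : ℝ := ((Ix σ J).card : ℝ) with hkdef
  have hkJ : (J : ℝ) ^ 4 ≤ 1000 * k := hk J hJ2
  have hk0 : 0 ≤ k := Nat.cast_nonneg _
  have hpos : ∀ y ∈ (nd J).erase x, 0 < D x y := by
    intro y hy
    rw [mem_erase] at hy
    have h := hsep J hJ1 x hx y hy.2 hy.1.symm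
    by_contra hcon
    push Not at hcon
    have : (J : ℝ) ^ 3 * D x y ≤ 0 := mul_nonpos_of_nonneg_of_nonpos (by positivity) hcon
    linarith
  have hprod : ∏ y ∈ (nd J).erase x, D x y ^ mlt σ J y =
      Real.exp (∑ y ∈ (nd J).erase x, (mlt σ J y : ℝ) * Real.log (D x y)) := by
    rw [Real.exp_sum]
    refine prod_congr rfl fun y hy => ?_
    rw [Real.exp_nat_mul, Real.exp_log (hpos y hy)]
  rw [hprod, Real.exp_le_exp]
  set N := ((nd J).erase x).filter fun y : ℤ × ℤ => D x y * M ≤ J with hN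
  set F := ((nd J).erase x).filter fun y : ℤ × ℤ => ¬ D x y * M ≤ J with hF
  have hsplit : ∑ y ∈ (nd J).erase x, (mlt σ J y : ℝ) * Real.log (D x y) =
      ∑ y ∈ N, (mlt σ J y : ℝ) * Real.log (D x y) +
      ∑ y ∈ F, (mlt σ J y : ℝ) * Real.log (D x y) :=
    (sum_filter_add_sum_filter_not _ _ _).symm
  have hmsplit : ∑ y ∈ (nd J).erase x, (mlt σ J y : ℝ) =
      ∑ y ∈ N, (mlt σ J y : ℝ) + ∑ y ∈ F, (mlt σ J y : ℝ) :=
    (sum_filter_add_sum_filter_not _ _ _).symm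
  have hmr : ∀ y ∈ nd J, (mlt σ J y : ℝ) ≤ (J : ℝ) ^ 2 := by
    intro y hy
    have := hm J y hy
    exact_mod_cast this
  have hktot : k = (mlt σ J x : ℝ) + ∑ y ∈ (nd J).erase x, (mlt σ J y : ℝ) := by
    rw [hkdef, card_Ix, Nat.cast_sum]
    exact (add_sum_erase _ (fun y => (mlt σ J y : ℝ)) hx).symm
  have hNcard : (N.card : ℝ) ≤ K * (J : ℝ) ^ 2 / M := by
    refine le_trans ?_ (hstr J M hM1 hJM x)
    have : N.card ≤ ((nd J).filter fun y : ℤ × ℤ => D x y * M ≤ J).card := by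
      refine card_le_card ?_
      rw [hN]
      exact filter_subset_filter _ (erase_subset _ _)
    exact_mod_cast this
  have hN1 : -(3 * Real.log J * ((J : ℝ) ^ 2 * N.card)) ≤
      ∑ y ∈ N, (mlt σ J y : ℝ) * Real.log (D x y) := by
    have h1 : ∑ _y ∈ N, -(3 * Real.log J * (J : ℝ) ^ 2) ≤
        ∑ y ∈ N, (mlt σ J y : ℝ) * Real.log (D x y) := by
      refine sum_le_sum fun y hy => ?_
      rw [hN, mem_filter] at hy
      have hy1 := hy.1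
      have hp := hpos y hy1
      rw [mem_erase] at hy1
      have h := hsep J hJ1 x hx y hy1.2 hy1.1.symm
      have hl : -(3 * Real.log J) ≤ Real.log (D x y) := by
        have h2 := Real.log_le_log one_pos h
        rw [Real.log_one, Real.log_mul (by positivity) hp.ne', Real.log_pow] at h2
        push_cast at h2
        linarith
      have hm1 := hmr y hy1.2
      have hm0 : (0 : ℝ) ≤ mlt σ J y := Nat.cast_nonneg _
      calc -(3 * Real.log J * (J : ℝ) ^ 2) ≤ -(3 * Real.log J * (mlt σ J y : ℝ)) := by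
            have := mul_le_mul_of_nonneg_left hm1 (show 0 ≤ 3 * Real.log J by linarith)
            linarith
        _ = (mlt σ J y : ℝ) * -(3 * Real.log J) := by ring
        _ ≤ _ := mul_le_mul_of_nonneg_left hl hm0
    refine le_trans (le_of_eq ?_) h1
    rw [sum_const, nsmul_eq_mul]
    ring
  have hN2 : ∑ y ∈ N, (mlt σ J y : ℝ) ≤ (J : ℝ) ^ 2 * N.card := by
    have h1 : ∑ y ∈ N, (mlt σ J y : ℝ) ≤ ∑ _y ∈ N, (J : ℝ) ^ 2 := by
      refine sum_le_sum fun y hy => hmr y ?_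
      rw [hN, mem_filter, mem_erase] at hy
      exact hy.1.2
    refine h1.trans (le_of_eq ?_)
    rw [sum_const, nsmul_eq_mul]
    ring
  have hF1 : (Real.log J - Real.log M) * ∑ y ∈ F, (mlt σ J y : ℝ) ≤
      ∑ y ∈ F, (mlt σ J y : ℝ) * Real.log (D x y) := by
    rw [mul_sum]
    refine sum_le_sum fun y hy => ?_
    rw [hF, mem_filter] at hy
    have hp := hpos y hy.1
    have h2 : (J : ℝ) < D x y * M := not_le.mp hy.2
    have h3 := Real.log_le_log (by linarith) h2.le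
    rw [Real.log_mul hp.ne' (by linarith : (M : ℝ) ≠ 0)] at h3
    rw [mul_comm]
    exact mul_le_mul_of_nonneg_left (by linarith) (Nat.cast_nonneg _)
  have hmx := hmr x hx
  have hF2 : k - (J : ℝ) ^ 2 - (J : ℝ) ^ 2 * N.card ≤ ∑ y ∈ F, (mlt σ J y : ℝ) := by
    linarith
  have hF3 : (Real.log J - Real.log M) * (k - (J : ℝ) ^ 2 - (J : ℝ) ^ 2 * N.card) ≤
      (Real.log J - Real.log M) * ∑ y ∈ F, (mlt σ J y : ℝ) :=
    mul_le_mul_of_nonneg_left hF2 (by linarith)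
  have h3 : (J : ℝ) ^ 2 * N.card ≤ ε / 12 * k := by
    have hMpos : (0 : ℝ) < M := by linarith
    have a1 : (N.card : ℝ) ≤ |K| * (J : ℝ) ^ 2 / M := by
      refine hNcard.trans ?_
      gcongr
      exact le_abs_self K
    have a2 : 12000 * |K| ≤ ε * M := by
      rw [div_le_iff₀ hε] at hMK
      linarith
    have a3 : |K| * (J : ℝ) ^ 2 / M ≤ ε / 12000 * (J : ℝ) ^ 2 := by
      rw [div_le_iff₀ hMpos]
      have := mul_le_mul_of_nonneg_right a2 (sq_nonneg (J : ℝ))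
      linarith
    calc (J : ℝ) ^ 2 * N.card ≤ (J : ℝ) ^ 2 * (ε / 12000 * (J : ℝ) ^ 2) :=
          mul_le_mul_of_nonneg_left (a1.trans a3) (by positivity)
      _ = ε / 12000 * (J : ℝ) ^ 4 := by ring
      _ ≤ ε / 12000 * (1000 * k) := mul_le_mul_of_nonneg_left hkJ (by positivity)
      _ = ε / 12 * k := by ring
  have h2 : (J : ℝ) ^ 2 ≤ ε / 3 * k := by
    rw [div_le_iff₀ hε] at h3000
    have a1 : 3000 * (J : ℝ) ^ 2 ≤ ε * (J : ℝ) ^ 4 := by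
      have b1 : (J : ℝ) ≤ (J : ℝ) ^ 2 := by nlinarith
      have b2 : 3000 ≤ (J : ℝ) ^ 2 * ε := h3000.trans (mul_le_mul_of_nonneg_right b1 hε.le)
      nlinarith [sq_nonneg (J : ℝ)]
    have a2 := mul_le_mul_of_nonneg_left hkJ hε.le
    linarith
  have hfin := final k N.card (Real.log J - Real.log M) (Real.log J) (Real.log M) ε
    ((J : ℝ) ^ 2) hk0 (Nat.cast_nonneg _) (by positivity) hlM hlJ rfl hlog h2 h3
  rw [hsplit]
  linarith

theorem kk (hCARD : T_CARD) (σ : ℚ) (hσ : σ = s0 ∨ σ = s1) :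
    (∃ J2 : ℕ, ∀ J ≥ J2, (J : ℝ) ^ 4 ≤ 1000 * (Ix σ J).card) ∧
    ∀ (J : ℕ) (x : ℤ × ℤ), x ∈ nd J → mlt σ J x ≤ J ^ 2 := by
  obtain ⟨-, -, h3, ⟨J0, h4⟩, h5⟩ := hCARD
  rcases hσ with h | h
  · subst h
    refine ⟨⟨200, fun J hJ => ?_⟩, fun J x hx => (h5 J x hx).1⟩
    have h := h3 J (by omega)
    have hJr : (200 : ℝ) ≤ J := by exact_mod_cast hJ
    have a0 : (200 : ℝ) ^ 2 ≤ (J : ℝ) ^ 2 := by nlinarith
    have a1 : (200 : ℝ) ^ 2 * (J : ℝ) ^ 2 ≤ (J : ℝ) ^ 4 := by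
      have := mul_le_mul_of_nonneg_right a0 (sq_nonneg (J : ℝ))
      nlinarith
    nlinarith
  · subst h
    refine ⟨⟨J0, fun J hJ => ?_⟩, fun J x hx => (h5 J x hx).2⟩
    have h := h4 J hJ
    have : 0 ≤ (J : ℝ) ^ 4 := by positivity
    linarith

theorem pf_SEP (hSPR : T_SPR) (hSTR : T_STR) (hCARD : T_CARD) (hLNZ : T_LNZ) : T_SEP := by
  intro π σ hσ ε hε
  obtain ⟨hk, hm⟩ := kk hCARD σ hσ
  obtain ⟨J1, hJ1⟩ := hSPR π
  have hA : lin π.A ≠ 0 := hLNZ _ π.hA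
  have hB : lin π.B ≠ 0 := hLNZ _ π.hB
  have hx1 : lin π.x1 ≠ 0 := by
    refine hLNZ _ fun h => π.hx ?_
    rw [h]
    simp
  have hy1 : lin π.y1 ≠ 0 := by
    refine hLNZ _ fun h => π.hy ?_
    rw [h]
    simp
  have e1 : ∀ x y : ℤ × ℤ, ‖om π x - om π y‖ =
      |((x.1 : ℝ) * (lin π.x1 / lin π.B) + x.2 * (lin π.x2 / lin π.B)) -
        ((y.1 : ℝ) * (lin π.x1 / lin π.B) + y.2 * (lin π.x2 / lin π.B))| := by
    intro x y
    unfold om
    rw [← Complex.ofReal_sub, Complex.norm_real, Real.norm_eq_abs]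
    congr 1
    ring
  have e2 : ∀ x y : ℤ × ℤ, ‖ze π x - ze π y‖ =
      |((x.1 : ℝ) * (lin π.y1 / lin π.A) + x.2 * (lin π.y2 / lin π.A)) -
        ((y.1 : ℝ) * (lin π.y1 / lin π.A) + y.2 * (lin π.y2 / lin π.A))| := by
    intro x y
    unfold ze
    rw [← Complex.ofReal_sub, Complex.norm_real, Real.norm_eq_abs]
    congr 1
    ring
  obtain ⟨Ja, ha⟩ := gen σ (fun x y => ‖om π x - om π y‖)
    ⟨J1, fun J hJ x hx y hy hxy => (hJ1 J hJ x hx y hy hxy).1⟩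
    (by
      obtain ⟨K, hK⟩ := hSTR (lin π.x1 / lin π.B) (lin π.x2 / lin π.B) (div_ne_zero hx1 hB)
      refine ⟨K, fun J M hM hMJ x => ?_⟩
      have h := hK J M hM hMJ x
      simp only [e1]
      exact h) hk hm ε hε
  obtain ⟨Jb, hb⟩ := gen σ (fun x y => ‖ze π x - ze π y‖)
    ⟨J1, fun J hJ x hx y hy hxy => (hJ1 J hJ x hx y hy hxy).2⟩
    (by
      obtain ⟨K, hK⟩ := hSTR (lin π.y1 / lin π.A) (lin π.y2 / lin π.A) (div_ne_zero hy1 hA)
      refine ⟨K, fun J M hM hMJ x => ?_⟩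
      have h := hK J M hM hMJ x
      simp only [e2]
      exact h) hk hm ε hε
  exact ⟨max Ja Jb, fun J hJ x hx => ⟨ha J ((le_max_left _ _).trans hJ) x hx,
    hb J ((le_max_right _ _).trans hJ) x hx⟩⟩

end Pool.Agent.H19.EE.SEP
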