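import Pool.Agent.H25.EE.TargetsB

set_option autoImplicit false

open Finset

namespace Pool.Agent.H19.EE.SUMS

open Pool.Agent.H25.EE

theorem step (f : ℤ → ℝ) (n : ℕ) :
    ∑ j ∈ Icc (-((n + 1 : ℕ) : ℤ)) ((n + 1 : ℕ) : ℤ), f j =
      ∑ j ∈ Icc (-(n : ℤ)) n, f j + f (n + 1) + f (-(n + 1)) := by
  have h : Icc (-((n + 1 : ℕ) : ℤ)) ((n + 1 : ℕ) : ℤ) =
      insert ((n : ℤ) + 1) (insert (-((n : ℤ) + 1)) (Icc (-(n : ℤ)) n)) := by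
    ext x
    simp only [mem_Icc, mem_insert]
    push_cast
    omega
  rw [h, sum_insert, sum_insert]
  · ring
  · simp only [mem_Icc]
    omega
  · simp only [mem_Icc, mem_insert]
    omega

theorem p0 (n : ℕ) : ∑ _j ∈ Icc (-(n : ℤ)) n, (1 : ℝ) = 2 * n + 1 := by
  induction n with
  | zero => simp
  | succ n ih =>
    rw [step (fun _ => (1 : ℝ)) n, ih]
    push_cast
    ring

theorem p2 (n : ℕ) : ∑ j ∈ Icc (-(n : ℤ)) n, (j : ℝ) ^ 2 = n * (n + 1) * (2 * n + 1) / 3 := by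
  induction n with
  | zero => simp
  | succ n ih =>
    rw [step (fun j => (j : ℝ) ^ 2) n, ih]
    push_cast
    ring

theorem p4 (n : ℕ) : ∑ j ∈ Icc (-(n : ℤ)) n, (j : ℝ) ^ 4 =
    n * (n + 1) * (2 * n + 1) * (3 * n ^ 2 + 3 * n - 1) / 15 := by
  induction n with
  | zero => simp
  | succ n ih =>
    rw [step (fun j => (j : ℝ) ^ 4) n, ih]
    push_cast
    ring

theorem S0 (J : ℕ) : ∑ j ∈ Icc (-(J : ℤ)) J, ((J : ℝ) ^ 2 - (j : ℝ) ^ 2) =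
    J * (4 * J ^ 2 - 1) / 3 := by
  have h : ∀ j ∈ Icc (-(J : ℤ)) J, ((J : ℝ) ^ 2 - (j : ℝ) ^ 2) =
      (J : ℝ) ^ 2 * 1 - (j : ℝ) ^ 2 := fun j _ => by ring
  rw [sum_congr rfl h, sum_sub_distrib, ← mul_sum, p0, p2]
  ring

theorem S2 (J : ℕ) : ∑ j ∈ Icc (-(J : ℤ)) J, (((J : ℝ) ^ 2 - (j : ℝ) ^ 2) * (j : ℝ) ^ 2) =
    J * (J ^ 2 - 1) * (4 * J ^ 2 - 1) / 15 := by
  have h : ∀ j ∈ Icc (-(J : ℤ)) J, (((J : ℝ) ^ 2 - (j : ℝ) ^ 2) * (j : ℝ) ^ 2) =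
      (J : ℝ) ^ 2 * (j : ℝ) ^ 2 - (j : ℝ) ^ 4 := fun j _ => by ring
  rw [sum_congr rfl h, sum_sub_distrib, ← mul_sum, p2, p4]
  ring

theorem S00 (J : ℕ) : ∑ j ∈ Icc (-(J : ℤ)) J, ((J : ℝ) ^ 2 - (j : ℝ) ^ 2) ^ 2 =
    J * (16 * J ^ 4 - 1) / 15 := by
  have h : ∀ j ∈ Icc (-(J : ℤ)) J, ((J : ℝ) ^ 2 - (j : ℝ) ^ 2) ^ 2 =
      (J : ℝ) ^ 4 * 1 - 2 * (J : ℝ) ^ 2 * (j : ℝ) ^ 2 + (j : ℝ) ^ 4 := fun j _ => by ring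
  rw [sum_congr rfl h, sum_add_distrib, sum_sub_distrib, ← mul_sum, ← mul_sum, p0, p2, p4]
  ring

theorem mlt_le (σ : ℚ) (J : ℕ) (x : ℤ × ℤ) (hσ : 0 < σ) (hx : x ∈ nd J) :
    (mlt σ J x : ℝ) ≤
      σ / (J : ℝ) ^ 2 * (((J : ℝ) ^ 2 - (x.1 : ℝ) ^ 2) * ((J : ℝ) ^ 2 - (x.2 : ℝ) ^ 2)) := by
  unfold nd at hx
  rw [mem_product, mem_Icc, mem_Icc] at hx
  obtain ⟨⟨h1, h2⟩, h3, h4⟩ := hx
  have a1 : (0 : ℚ) ≤ (J : ℚ) ^ 2 - (x.1 : ℚ) ^ 2 := by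
    have e1 : -(J : ℚ) ≤ x.1 := by exact_mod_cast h1
    have e2 : (x.1 : ℚ) ≤ J := by exact_mod_cast h2
    nlinarith
  have a2 : (0 : ℚ) ≤ (J : ℚ) ^ 2 - (x.2 : ℚ) ^ 2 := by
    have e1 : -(J : ℚ) ≤ x.2 := by exact_mod_cast h3
    have e2 : (x.2 : ℚ) ≤ J := by exact_mod_cast h4
    nlinarith
  have h := Nat.floor_le (show (0 : ℚ) ≤
    σ * (((J : ℚ) ^ 2 - (x.1 : ℚ) ^ 2) * ((J : ℚ) ^ 2 - (x.2 : ℚ) ^ 2) / (J : ℚ) ^ 2) by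
      positivity)
  have h' : ((mlt σ J x : ℕ) : ℝ) ≤
      ((σ * (((J : ℚ) ^ 2 - (x.1 : ℚ) ^ 2) * ((J : ℚ) ^ 2 - (x.2 : ℚ) ^ 2) / (J : ℚ) ^ 2) : ℚ) :
        ℝ) := by
    unfold mlt
    exact_mod_cast h
  refine h'.trans (le_of_eq ?_)
  push_cast
  ring

theorem sum_range_le (n : ℕ) : ∑ i ∈ range n, (i : ℝ) ≤ (n : ℝ) ^ 2 / 2 := by
  induction n with
  | zero => simp
  | succ n ih =>
    rw [sum_range_succ]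
    push_cast
    nlinarith

theorem prodsum (f g : ℤ → ℝ) (J : ℕ) : ∑ x ∈ nd J, f x.1 * g x.2 =
    (∑ j ∈ Icc (-(J : ℤ)) J, f j) * ∑ j ∈ Icc (-(J : ℤ)) J, g j := by
  unfold nd
  rw [sum_product, sum_mul_sum]

theorem pf_SUMS : T_SUMS := by
  intro σ J hσ hσ1 hJ
  have hJ1 : (1 : ℝ) ≤ J := by exact_mod_cast hJ
  have hJ0 : (0 : ℝ) < J := by linarith
  have hσR : (0 : ℝ) < σ := by exact_mod_cast hσ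
  have b0 : ∑ j ∈ Icc (-(J : ℤ)) J, ((J : ℝ) ^ 2 - (j : ℝ) ^ 2) ≤ 4 / 3 * (J : ℝ) ^ 3 := by
    rw [S0]
    nlinarith
  have n0 : 0 ≤ ∑ j ∈ Icc (-(J : ℤ)) J, ((J : ℝ) ^ 2 - (j : ℝ) ^ 2) := by
    rw [S0]
    have : 0 ≤ 4 * (J : ℝ) ^ 2 - 1 := by nlinarith
    positivity
  have n2 : 0 ≤ ∑ j ∈ Icc (-(J : ℤ)) J, (((J : ℝ) ^ 2 - (j : ℝ) ^ 2) * (j : ℝ) ^ 2) := by
    rw [S2]
    have h1 : 0 ≤ 4 * (J : ℝ) ^ 2 - 1 := by nlinarith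
    have h2 : 0 ≤ (J : ℝ) ^ 2 - 1 := by nlinarith
    positivity
  have b2 : ∑ j ∈ Icc (-(J : ℤ)) J, (((J : ℝ) ^ 2 - (j : ℝ) ^ 2) * (j : ℝ) ^ 2) ≤
      4 / 15 * (J : ℝ) ^ 5 := by
    rw [S2]
    have h2 : 0 ≤ (J : ℝ) * (5 * J ^ 2 - 1) := by
      have : 0 ≤ 5 * (J : ℝ) ^ 2 - 1 := by nlinarith
      positivity
    have e : (J : ℝ) * (J ^ 2 - 1) * (4 * J ^ 2 - 1) / 15 =
      4 / 15 * (J : ℝ) ^ 5 - (J : ℝ) * (5 * J ^ 2 - 1) / 15 := by ring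
    rw [e]
    linarith
  have b00 : ∑ j ∈ Icc (-(J : ℤ)) J, ((J : ℝ) ^ 2 - (j : ℝ) ^ 2) ^ 2 ≤ 16 / 15 * (J : ℝ) ^ 5 := by
    rw [S00]
    nlinarith
  have n00 : 0 ≤ ∑ j ∈ Icc (-(J : ℤ)) J, ((J : ℝ) ^ 2 - (j : ℝ) ^ 2) ^ 2 :=
    sum_nonneg fun j _ => by positivity
  set A : ℝ := ∑ j ∈ Icc (-(J : ℤ)) J, ((J : ℝ) ^ 2 - (j : ℝ) ^ 2) with hA
  set B : ℝ := ∑ j ∈ Icc (-(J : ℤ)) J, (((J : ℝ) ^ 2 - (j : ℝ) ^ 2) * (j : ℝ) ^ 2) with hB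
  set D : ℝ := ∑ j ∈ Icc (-(J : ℤ)) J, ((J : ℝ) ^ 2 - (j : ℝ) ^ 2) ^ 2 with hD
  constructor
  · unfold Ix
    rw [sum_sigma]
    simp only [sum_const, card_range, nsmul_eq_mul]
    have h1 : ∑ x ∈ nd J, (mlt σ J x : ℝ) * ((x.1 : ℝ) ^ 2 + (x.2 : ℝ) ^ 2) ≤
        ∑ x ∈ nd J, σ / (J : ℝ) ^ 2 *
          (((J : ℝ) ^ 2 - (x.1 : ℝ) ^ 2) * ((J : ℝ) ^ 2 - (x.2 : ℝ) ^ 2)) *
          ((x.1 : ℝ) ^ 2 + (x.2 : ℝ) ^ 2) :=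
      sum_le_sum fun x hx => mul_le_mul_of_nonneg_right (mlt_le σ J x hσ hx) (by positivity)
    refine h1.trans ?_
    have h2 : ∑ x ∈ nd J, σ / (J : ℝ) ^ 2 *
          (((J : ℝ) ^ 2 - (x.1 : ℝ) ^ 2) * ((J : ℝ) ^ 2 - (x.2 : ℝ) ^ 2)) *
          ((x.1 : ℝ) ^ 2 + (x.2 : ℝ) ^ 2) = σ / (J : ℝ) ^ 2 * (B * A + A * B) := by
      have e1 : ∀ x ∈ nd J, σ / (J : ℝ) ^ 2 *
          (((J : ℝ) ^ 2 - (x.1 : ℝ) ^ 2) * ((J : ℝ) ^ 2 - (x.2 : ℝ) ^ 2)) *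
          ((x.1 : ℝ) ^ 2 + (x.2 : ℝ) ^ 2) = σ / (J : ℝ) ^ 2 *
          ((((J : ℝ) ^ 2 - (x.1 : ℝ) ^ 2) * (x.1 : ℝ) ^ 2) * ((J : ℝ) ^ 2 - (x.2 : ℝ) ^ 2) +
          ((J : ℝ) ^ 2 - (x.1 : ℝ) ^ 2) * (((J : ℝ) ^ 2 - (x.2 : ℝ) ^ 2) * (x.2 : ℝ) ^ 2)) :=
        fun x _ => by ring
      rw [sum_congr rfl e1, ← mul_sum, sum_add_distrib,
        prodsum (fun j => ((J : ℝ) ^ 2 - (j : ℝ) ^ 2) * (j : ℝ) ^ 2)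
          (fun j => (J : ℝ) ^ 2 - (j : ℝ) ^ 2) J,
        prodsum (fun j => (J : ℝ) ^ 2 - (j : ℝ) ^ 2)
          (fun j => ((J : ℝ) ^ 2 - (j : ℝ) ^ 2) * (j : ℝ) ^ 2) J]
    rw [h2]
    have h3 : A * B ≤ 4 / 3 * (J : ℝ) ^ 3 * (4 / 15 * (J : ℝ) ^ 5) :=
      mul_le_mul b0 b2 n2 (by positivity)
    have h4 : B * A + A * B ≤ 32 / 45 * (J : ℝ) ^ 8 := by nlinarith
    calc (σ : ℝ) / (J : ℝ) ^ 2 * (B * A + A * B) ≤ σ / (J : ℝ) ^ 2 * (32 / 45 * (J : ℝ) ^ 8) :=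
        mul_le_mul_of_nonneg_left h4 (by positivity)
      _ = σ * (32 / 45) * (J : ℝ) ^ 6 := by field_simp
  · unfold Ix
    rw [sum_sigma]
    have h1 : ∑ x ∈ nd J, ∑ s ∈ range (mlt σ J x), (s : ℝ) ≤
        ∑ x ∈ nd J, (σ : ℝ) ^ 2 / (2 * (J : ℝ) ^ 4) *
          (((J : ℝ) ^ 2 - (x.1 : ℝ) ^ 2) ^ 2 * ((J : ℝ) ^ 2 - (x.2 : ℝ) ^ 2) ^ 2) := by
      refine sum_le_sum fun x hx => (sum_range_le _).trans ?_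
      have h := mlt_le σ J x hσ hx
      have h0 : (0 : ℝ) ≤ mlt σ J x := Nat.cast_nonneg _
      have h5 := pow_le_pow_left₀ h0 h 2
      calc (mlt σ J x : ℝ) ^ 2 / 2 ≤ (σ / (J : ℝ) ^ 2 *
          (((J : ℝ) ^ 2 - (x.1 : ℝ) ^ 2) * ((J : ℝ) ^ 2 - (x.2 : ℝ) ^ 2))) ^ 2 / 2 := by linarith
        _ = _ := by
          field_simp
    refine h1.trans ?_
    rw [← mul_sum, prodsum (fun j => ((J : ℝ) ^ 2 - (j : ℝ) ^ 2) ^ 2)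
      (fun j => ((J : ℝ) ^ 2 - (j : ℝ) ^ 2) ^ 2) J]
    have h3 : D * D ≤ 16 / 15 * (J : ℝ) ^ 5 * (16 / 15 * (J : ℝ) ^ 5) :=
      mul_le_mul b00 b00 n00 (by positivity)
    calc (σ : ℝ) ^ 2 / (2 * (J : ℝ) ^ 4) * (D * D) ≤
        (σ : ℝ) ^ 2 / (2 * (J : ℝ) ^ 4) * (16 / 15 * (J : ℝ) ^ 5 * (16 / 15 * (J : ℝ) ^ 5)) :=
        mul_le_mul_of_nonneg_left h3 (by positivity)
      _ = (σ : ℝ) ^ 2 * (128 / 225) * (J : ℝ) ^ 6 := by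
        field_simp
        ring

end Pool.Agent.H19.EE.SUMS
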